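import Pool.Agent.Lib.MP_b5021c_nt.IfaceB
import Pool.Agent.Lib.MP_b5021c_nt.IfaceL2
import Pool.Agent.Lib.MP_b5021c_nt.H50.Spk

/-!
# Glue between rows
-/

namespace Pool.Agent.B5.H25

theorem spk (h : A4S) : SPKS := Pool.Agent.B5.H50.spk h

end Pool.Agent.B5.H25
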