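import Pool.Agent.Lib.MP_b5021c_nt.IfaceK3
import Pool.Agent.Lib.MP_b5021c_nt.IfaceL2

/-!
# MAE: the main estimate `k + 1 ≤ 2400 θ` for `θ` in the `k`-th derived set of the Pisot numbers
-/

namespace Pool.Agent.MP_b5021c_nt

open Pool.Agent.B5

/-- MAE. The main estimate. -/
def MaeS : Prop := ∀ (k : ℕ) (θ : ℝ), 1 ≤ k → θ ∈ PSk k → (k : ℝ) + 1 ≤ 2400 * θ

theorem mae (hT : ThkS) (hG : GdeS) (hJ : JPLS) : MaeS := by
  intro k θ hk h
  obtain ⟨D, hD⟩ := hT k θ h (by omega)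
  obtain ⟨h1, h2⟩ := hG (Fin (k + 1)) D θ hD
  have h3 := hJ θ (Fin (k + 1)) (Fin (k + 1) → ℤ) (AddMonoidHom.id _) (toE D) h1 h2
  rw [Module.finrank_fin_fun] at h3
  push_cast at h3
  exact h3

end Pool.Agent.MP_b5021c_nt
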