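import Pool.Agent.Lib.MP_b5021c_nt.K.H29.Fdc

/-!
# SMA: shape of the small factors
-/

namespace Pool.Agent.B5.H25

open scoped LaurentPolynomial

theorem sma (hM : MmulS) (hC4 : C4S) (hT : ThinS) (hW : WWfS) (h4 : Coeff0S) (hG0 : G0S) :
    SmallS := by
  classical
  intro O _ _ _ _ P L _ _ _ _ _ phi D S i0 eta h c n G fd l hl
  obtain ⟨hst, hun, hc0, hww, hinj, _⟩ := hG0 O P L phi D S i0 eta h fd.cc
  have hM1 : M ((G l).coeff 0) = 1 := le_antisymm (not_lt.mp hl) ((hM O).2.1 _)
  have hthin : Thin (supp (G l)) :=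
    hT P (Ker (co phi i0)) (phK phi (co phi i0)) (II phi S i0) (OO phi S) (supp (G l)) hinj (fd.ww l)
  obtain ⟨hu0, b, hb0, hub, hsupp⟩ := hC4 O _ (G l) (fd.irr l) (fd.st l) (fd.wd l) hthin hM1
  obtain ⟨u0, hu0'⟩ := hu0
  obtain ⟨ub, hub'⟩ := hub
  -- the formula
  have hform : G l = cst ((G l).coeff 0) * (1 - AddMonoidAlgebra.single b
      ((((-(u0⁻¹ * ub))⁻¹)⁻¹ : (RO O)ˣ) : RO O)) := by
    rw [inv_inv]
    have h1 : cst ((G l).coeff 0) * (1 - AddMonoidAlgebra.single b
        ((-(u0⁻¹ * ub) : (RO O)ˣ) : RO O)) =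
        AddMonoidAlgebra.single 0 ((G l).coeff 0) + AddMonoidAlgebra.single b ((G l).coeff b) := by
      rw [mul_sub, mul_one, cst, AddMonoidAlgebra.single_mul_single, zero_add, sub_eq_add_neg,
        ← AddMonoidAlgebra.single_neg]
      congr 2
      rw [← hu0', ← hub']
      push_cast
      rw [mul_neg, neg_neg, Units.mul_inv_cancel_left]
    rw [h1]
    apply AddMonoidAlgebra.ext
    apply Finsupp.ext
    intro a
    rw [AddMonoidAlgebra.coeff_add, Finsupp.add_apply, AddMonoidAlgebra.coeff_single,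
      AddMonoidAlgebra.coeff_single]
    by_cases ha0 : a = 0
    · subst ha0
      rw [Finsupp.single_eq_same, Finsupp.single_eq_of_ne (Ne.symm hb0), add_zero]
    · by_cases hab : a = b
      · subst hab
        rw [Finsupp.single_eq_same, Finsupp.single_eq_of_ne hb0, zero_add]
      · rw [Finsupp.single_eq_of_ne ha0, Finsupp.single_eq_of_ne hab, add_zero]
        by_contra hne
        have : a ∈ supp (G l) := hne
        rw [hsupp] at this
        rcases this with h2 | h2
        · exact ha0 h2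
        · exact hab h2
  refine ⟨⟨u0, hu0'⟩, ⟨b, hb0, hsupp, _, hform⟩, fun hnp => ?_⟩
  -- the port
  have hnp' : ∃ a ∈ supp (G l), ∃ j ∈ OO phi S, phi (a : L) j ≠ 0 := by
    by_contra hcon
    push Not at hcon
    exact hnp hcon
  obtain ⟨a, ha, j, hj, haj⟩ := hnp'
  have hab : a = b := by
    rw [hsupp] at ha
    rcases ha with h2 | h2
    · exfalso
      apply haj
      rw [h2]
      simp
    · exact h2
  subst hab
  have hb1 : phi (a : L) j = 1 := by
    have h2 := (fd.ww l a ha).1 j hj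
    rcases h2 with h2 | h2
    · exact absurd h2 haj
    · exact h2
  refine ⟨a, j, _, hj, hb1, hform, ⟨u0, hu0'⟩, fun i hil a' ha' => ?_⟩
  -- all factors are positive for one functional
  obtain ⟨hV0, lam, hpos, _⟩ := id hst
  have hGpos : ∀ i, Pos lam (G i) := fun i => (fd.full i lam hpos).2.1
  have hG0' : ∀ i, (G i).coeff 0 ≠ 0 := fun i => (fd.full i lam hpos).1
  have key : ∀ s : Finset (Fin n), (cst c * ∏ i ∈ s, G i).coeff 0 = c * ∏ i ∈ s, (G i).coeff 0 ∧
      Pos lam (cst c * ∏ i ∈ s, G i) := by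
    intro s
    obtain ⟨e1, p1⟩ := H29.prod_coeff_zero h4 G lam hGpos s
    have h5 := h4 O _ (cst c) (∏ i ∈ s, G i) lam (H29.pos_cst lam c) p1
    rw [h5.1, H29.cst_coeff_zero, e1]
    exact ⟨rfl, h5.2⟩
  set H : AO O (Ker (co phi i0)) := cst c * ∏ m ∈ (Finset.univ.erase l).erase i, G m with hH
  have hH0 : H.coeff 0 ≠ 0 := by
    rw [(key _).1]
    exact mul_ne_zero fd.c0 (Finset.prod_ne_zero_iff.mpr fun j _ => hG0' j)
  have hGH0 : (G i * H).coeff 0 ≠ 0 := by
    rw [(h4 O _ (G i) H lam (hGpos i) (key _).2).1]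
    exact mul_ne_zero (hG0' i) hH0
  have e : cl (co phi i0) S h eta D = G l * (G i * H) := by
    rw [fd.eq, ← Finset.mul_prod_erase Finset.univ G (Finset.mem_univ l),
      ← Finset.mul_prod_erase (Finset.univ.erase l) G (Finset.mem_erase.mpr ⟨hil, Finset.mem_univ i⟩)]
    ring
  have e2 : cl (co phi i0) S h eta D = (G i * H) * G l := by rw [e, mul_comm]
  have w1 := hW O P _ (phK phi (co phi i0)) (II phi S i0) (OO phi S) (G l) (G i * H)
    (by rw [← e]; exact hww) (hG0' l) hGH0
  have w2 := hW O P _ (phK phi (co phi i0)) (II phi S i0) (OO phi S) (G i * H) (G l)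
    (by rw [← e2]; exact hww) hGH0 (hG0' l)
  have w3 : ∀ a ∈ supp (G i * H), phK phi (co phi i0) a j = 0 := by
    rcases w1.2 j hj with h6 | h6
    · exfalso
      have := h6 a ha
      change phi (a : L) j = 0 at this
      rw [hb1] at this
      exact one_ne_zero this
    · exact h6
  have hjI : j ∉ II phi S i0 := by
    intro hjI
    have h7 := (Finset.mem_filter.mp hjI).2.1
    have h8 := (Finset.mem_filter.mp hj).2
    rw [h8] at h7
    exact zero_ne_one h7
  have w4 := hW O P _ (phK phi (co phi i0)) (II phi S i0) ((OO phi S).erase j) (G i) H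
    (fun a ha => ?_) (hG0' i) hH0
  · exact (w4.1 a' ha').2.2 j hjI (Finset.notMem_erase j _)
  · obtain ⟨h9, h10, h11⟩ := w2.1 a ha
    refine ⟨fun m hm => h9 m (Finset.mem_of_mem_erase hm), h10, fun m hm1 hm2 => ?_⟩
    by_cases hmj : m = j
    · rw [hmj]; exact w3 a ha
    · exact h11 m hm1 fun hm3 => hm2 (Finset.mem_erase.mpr ⟨hmj, hm3⟩)

end Pool.Agent.B5.H25
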