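import Pool.Agent.Lib.MP_b5021c_nt.IfaceE7
import Pool.Agent.Lib.MP_b5021c_nt.K.H50.Ire

/-!
# BCH: base change from `ℤ` to the Eisenstein integers
-/

namespace Pool.Agent.B5.H25.Bch

open Polynomial Pool.Agent.MP_b5021c_nt Pool.Agent.B5
open Pool.Agent.MP_b5021c_nt.Ire
open Pool.Agent.MP_b5021c_nt.Lik
open scoped LaurentPolynomial

noncomputable section

variable {L : Type} [AddCommGroup L]

/-- base change of the coefficients -/
def bcR : RO ℤ →+* RO Eis := AddMonoidAlgebra.mapRingHom ℤ (Int.castRingHom Eis)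

theorem bc_co (F : A L) (a : L) : (bc F).coeff a = bcR (F.coeff a) := by
  simp [bc, bcR]

theorem bcR_inj : Function.Injective bcR := by
  intro p q h
  apply AddMonoidAlgebra.ext
  apply Finsupp.ext
  intro n
  have h1 : (bcR p).coeff n = (bcR q).coeff n := by rw [h]
  have h2 : ((p.coeff n : ℤ) : Eis) = ((q.coeff n : ℤ) : Eis) := by simpa [bcR] using h1
  exact cast_inj h2

theorem supp_bc (F : A L) : supp (bc F) = supp F := by
  ext a
  change (bc F).coeff a ≠ 0 ↔ F.coeff a ≠ 0
  rw [bc_co]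
  exact map_ne_zero_iff bcR bcR_inj

theorem bcR_T (n : ℤ) : bcR (LaurentPolynomial.T n) = LaurentPolynomial.T n := by
  change AddMonoidAlgebra.mapRingHom ℤ (Int.castRingHom Eis) (AddMonoidAlgebra.single n 1) = _
  rw [AddMonoidAlgebra.mapRingHom_single, map_one]
  rfl

theorem bcR_C (r : ℤ) : bcR (LaurentPolynomial.C r) = LaurentPolynomial.C (r : Eis) := by
  change AddMonoidAlgebra.mapRingHom ℤ (Int.castRingHom Eis) (AddMonoidAlgebra.single 0 r) = _
  rw [AddMonoidAlgebra.mapRingHom_single]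
  rfl

theorem rsh_C {O : Type} [CommRing O] [Coef O] (r : O) :
    rsh (LaurentPolynomial.C r) = LaurentPolynomial.C (Coef.conj r) := by
  change LaurentPolynomial.invert (AddMonoidAlgebra.mapRingHom ℤ (Coef.conj : O ≃+* O).toRingHom
    (AddMonoidAlgebra.single 0 r)) = _
  rw [AddMonoidAlgebra.mapRingHom_single]
  exact LaurentPolynomial.invert_C _

theorem rsh_T {O : Type} [CommRing O] [Coef O] (n : ℤ) :
    rsh (LaurentPolynomial.T n : RO O) = LaurentPolynomial.T (-n) := by
  change LaurentPolynomial.invert (AddMonoidAlgebra.mapRingHom ℤ (Coef.conj : O ≃+* O).toRingHom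
    (AddMonoidAlgebra.single n 1)) = _
  rw [AddMonoidAlgebra.mapRingHom_single, map_one]
  exact LaurentPolynomial.invert_T _

theorem bcR_L (q : ℤ[X]) : bcR (toLaurent q) = toLaurent (q.map (Int.castRingHom Eis)) :=
  map_toLaurent' _ _

theorem evR_bc (z : Circle) (q : RO ℤ) : evR z (bcR q) = evR z q := by
  have h : (evR (O := Eis) z).comp bcR = evR (O := ℤ) z := by
    apply AddMonoidAlgebra.ringHom_ext
    · intro r
      change evR z (bcR (LaurentPolynomial.C r)) = evR z (LaurentPolynomial.C r)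
      rw [bcR_C]
      simp [evR]
    · intro n
      change evR z (bcR (LaurentPolynomial.T n)) = evR z (LaurentPolynomial.T n)
      rw [bcR_T]
      simp [evR]
  exact RingHom.congr_fun h q

theorem spec_bc (z : Circle) (F : A L) : spec z (bc F) = spec z F := by
  apply AddMonoidAlgebra.ext
  apply Finsupp.ext
  intro a
  have h1 : (spec z (bc F)).coeff a = evR z ((bc F).coeff a) := by simp [spec]
  have h2 : (spec z F).coeff a = evR z (F.coeff a) := by simp [spec]
  rw [h1, h2, bc_co, evR_bc]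

theorem rsh_bc (q : RO ℤ) : rsh (bcR q) = bcR (rsh q) := by
  have h : (rsh (O := Eis)).comp bcR = bcR.comp (rsh (O := ℤ)) := by
    apply AddMonoidAlgebra.ringHom_ext
    · intro r
      change rsh (bcR (LaurentPolynomial.C r)) = bcR (rsh (LaurentPolynomial.C r))
      rw [bcR_C, rsh_C, rsh_C, bcR_C]
      congr 1
      simp [Coef.conj]
    · intro n
      change rsh (bcR (LaurentPolynomial.T n)) = bcR (rsh (LaurentPolynomial.T n))
      rw [bcR_T, rsh_T, rsh_T, bcR_T]
  exact RingHom.congr_fun h q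

theorem sharp_bc (F : A L) : sharp (bc F) = bc (sharp F) := by
  apply AddMonoidAlgebra.ext
  apply Finsupp.ext
  intro a
  rw [sharp_coeff', bc_co, bc_co, sharp_coeff', rsh_bc]

/-! ### Irreducibility -/

theorem sum_coeff (F : AO Eis L) :
    F = ∑ a ∈ F.coeff.support, AddMonoidAlgebra.single a (F.coeff a) :=
  (AddMonoidAlgebra.sum_coeff_single F).symm

theorem tau_gr (lam : L →+ ℤ) (c : ℤ) (F : AO Eis L) (h : ∀ a ∈ F.coeff.support, lam a = c) :
    tau Eis lam F = AddMonoidAlgebra.single c F := by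
  have h1 : tau Eis lam F = ∑ a ∈ F.coeff.support,
      AddMonoidAlgebra.single c (AddMonoidAlgebra.single a (F.coeff a)) := by
    conv_lhs => rw [sum_coeff F]
    rw [map_sum]
    refine Finset.sum_congr rfl fun a ha => ?_
    rw [tau_single, h a ha]
  rw [h1]
  conv_rhs => rw [sum_coeff F]
  exact (map_sum (AddMonoidAlgebra.singleAddHom c) _ _).symm

/-- the part of degree `c` -/
def gp (lam : L →+ ℤ) (c : ℤ) (F : AO Eis L) : AO Eis L :=
  AddMonoidAlgebra.ofCoeff (F.coeff.filter fun a => lam a = c)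

theorem gp_coeff (lam : L →+ ℤ) (c : ℤ) (F : AO Eis L) (a : L) :
    (gp lam c F).coeff a = if lam a = c then F.coeff a else 0 := by
  change (F.coeff.filter fun a => lam a = c) a = _
  rw [Finsupp.filter_apply]

theorem gp_supp (lam : L →+ ℤ) (c : ℤ) (F : AO Eis L) :
    ∀ a ∈ (gp lam c F).coeff.support, lam a = c := by
  intro a ha
  rw [Finsupp.mem_support_iff, gp_coeff] at ha
  by_contra h
  rw [if_neg h] at ha
  exact ha rfl

theorem gp_add (lam : L →+ ℤ) (F : AO Eis L) (h : ∀ a ∈ F.coeff.support, lam a = 0 ∨ lam a = 1) :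
    F = gp lam 0 F + gp lam 1 F := by
  apply AddMonoidAlgebra.ext
  apply Finsupp.ext
  intro a
  rw [AddMonoidAlgebra.coeff_add, Finsupp.add_apply, gp_coeff, gp_coeff]
  by_cases ha : a ∈ F.coeff.support
  · rcases h a ha with h1 | h1 <;> simp [h1]
  · have h2 : F.coeff a = 0 := by simpa using ha
    rw [h2]; simp

theorem wd_one [Module.Free ℤ L] [Module.Finite ℤ L] (lam : L →+ ℤ) (F : AO Eis L)
    (h : ∀ a ∈ F.coeff.support, lam a = 0 ∨ lam a = 1)
    (h0 : F.coeff 0 ≠ 0) (a : L) (ha : F.coeff a ≠ 0) (h1 : lam a = 1) :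
    Wd (tau Eis lam F) 1 := by
  have hd0 : gp lam 0 F ≠ 0 := by
    intro hz
    have h2 : (gp lam 0 F).coeff 0 = 0 := by rw [hz]; simp
    rw [gp_coeff, if_pos (map_zero lam)] at h2
    exact h0 h2
  have he0 : gp lam 1 F ≠ 0 := by
    intro hz
    have h2 : (gp lam 1 F).coeff a = 0 := by rw [hz]; simp
    rw [gp_coeff, if_pos h1] at h2
    exact ha h2
  refine ⟨0, C (gp lam 1 F) * X + C (gp lam 0 F), by simpa using hd0, ?_, natDegree_linear he0⟩
  conv_lhs => rw [gp_add lam F h]
  rw [map_add, tau_gr lam 0 _ (gp_supp lam 0 F), tau_gr lam 1 _ (gp_supp lam 1 F),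
    LaurentPolynomial.T_zero, one_mul, map_add, map_mul, toLaurent_C, toLaurent_C, toLaurent_X,
    LaurentPolynomial.single_eq_C_mul_T, LaurentPolynomial.single_eq_C_mul_T,
    LaurentPolynomial.T_zero, mul_one]
  ring

theorem ufdL (O : Type) [CommRing O] [IsDomain O] [IsPrincipalIdealRing O] (L : Type)
    [AddCommGroup L] [Module.Free ℤ L] [Module.Finite ℤ L] :
    UniqueFactorizationMonoid (AO O L) := by
  have h1 := dom O (Fin (Module.finrank ℤ L))
  have h2 := ufd O (Fin (Module.finrank ℤ L))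
  refine ufd_equiv ?_ h2
  exact AddMonoidAlgebra.mapDomainRingEquiv (RO O)
    ((Module.finBasis ℤ L).equivFun.symm.toAddEquiv)

theorem irr_bc [Module.Free ℤ L] [Module.Finite ℤ L] (lam : L →+ ℤ) (D : A L)
    (hD : Irreducible D) (hw : Wd (tau Eis lam (bc D)) 1) : Irreducible (bc D) := by
  have hdomE : IsDomain (AO Eis L) := inferInstance
  have hufd : UniqueFactorizationMonoid (A L) := ufdL ℤ L
  have hne : bc D ≠ 0 := (map_ne_zero_iff bc bc_inj).mpr hD.ne_zero
  have hpr : Prime D := UniqueFactorizationMonoid.irreducible_iff_prime.mp hD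
  constructor
  · intro hu
    have h1 := wd_unit (hu.map (tau Eis lam))
    exact absurd (wd_unique h1 hw) zero_ne_one
  · intro F H hFH
    by_contra hc
    rw [not_or] at hc
    have hF0 : F ≠ 0 := by
      rintro rfl
      rw [zero_mul] at hFH
      exact hne hFH
    obtain ⟨f, hf⟩ := descend (F * sg F) (by rw [map_mul, sg_sg, mul_comm])
    obtain ⟨h, hh⟩ := descend (H * sg H) (by rw [map_mul, sg_sg, mul_comm])
    have hfh : f * h = D ^ 2 := by
      apply bc_inj
      rw [map_mul, hf, hh, map_pow]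
      have h1 : sg (bc D) = bc D := sg_bc D
      calc F * sg F * (H * sg H) = (F * H) * (sg F * sg H) := by ring
        _ = bc D ^ 2 := by rw [← map_mul, ← hFH, h1, sq]
    have hfd : f ∣ D ^ 2 := ⟨h, hfh.symm⟩
    obtain ⟨k, hk2, hk⟩ := (dvd_prime_pow hpr 2).mp hfd
    have hunitF : ¬ IsUnit f := by
      intro hu
      apply hc.1
      have h1 : IsUnit (F * sg F) := by rw [← hf]; exact hu.map bc
      exact isUnit_of_mul_isUnit_left h1
    have hunitH : ¬ IsUnit h := by
      intro hu
      apply hc.2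
      have h1 : IsUnit (H * sg H) := by rw [← hh]; exact hu.map bc
      exact isUnit_of_mul_isUnit_left h1
    have hk1 : k = 1 := by
      interval_cases k
      · exfalso
        rw [pow_zero] at hk
        exact hunitF (hk.symm.isUnit isUnit_one)
      · rfl
      · exfalso
        apply hunitH
        obtain ⟨u, hu⟩ := hk
        have h1 : f * h = f * (u : A L) := by rw [hfh, hu]
        have hf0 : f ≠ 0 := by
          rintro rfl
          rw [map_zero] at hf
          have h2 : sg F ≠ 0 := (map_ne_zero_iff sg sg_inj).mpr hF0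
          exact mul_ne_zero hF0 h2 hf.symm
        rw [mul_left_cancel₀ hf0 h1]
        exact u.isUnit
    rw [hk1, pow_one] at hk
    obtain ⟨u, hu⟩ := hk
    have h1 : F * sg F * bc (u : A L) = bc D := by
      rw [← hf, ← map_mul, hu]
    have h2 : tau Eis lam F ≠ 0 := by
      intro h3
      have h4 : tau Eis lam (bc D) = 0 := by rw [hFH, map_mul, h3, zero_mul]
      obtain ⟨n, g, h5, h6, h7⟩ := hw
      rw [h4] at h6
      have h8 : (toLaurent g : LaurentPolynomial (AO Eis L)) = 0 := by
        have h9 : (LaurentPolynomial.T (-n) : LaurentPolynomial (AO Eis L))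
            * (LaurentPolynomial.T n * toLaurent g) = toLaurent g := by
          rw [← mul_assoc, ← LaurentPolynomial.T_add, neg_add_cancel, LaurentPolynomial.T_zero, one_mul]
        rw [← h9, ← h6, mul_zero]
      rw [toLaurent_eq_zero] at h8
      rw [h8, coeff_zero] at h5
      exact h5 rfl
    obtain ⟨m, hm⟩ := wd_ex _ h2
    have hm9 := wd_map sg sg_inj hm
    have hm' : Wd (tau Eis lam (sg F)) m := by
      rw [← tau_sg] at hm9
      exact hm9
    have h3 := wd_mul (wd_mul hm hm') (wd_unit ((u.isUnit.map bc).map (tau Eis lam)))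
    rw [← map_mul, ← map_mul, h1] at h3
    have h4 := wd_unique h3 hw
    omega

/-! ### The classes -/

theorem emb_comp : (Coef.emb : Eis →+* ℂ).comp (Int.castRingHom Eis) = (Coef.emb : ℤ →+* ℂ) :=
  RingHom.ext_int _ _

theorem classV_bc {N : ℝ} {q : RO ℤ} (h : ClassV N q) : ClassV N (bcR q) := by
  obtain ⟨h1, n, p, h2, h3, h4⟩ := h
  refine ⟨h1, n, p.map (Int.castRingHom Eis), ?_, ?_, ?_⟩
  · rw [h2, map_mul, bcR_T, bcR_L]
  · rw [Polynomial.coeff_map, ← RingHom.comp_apply, emb_comp]
    exact h3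
  · intro z hz
    rw [Polynomial.map_map, emb_comp]
    exact h4 z hz

theorem classP_bc {θ : ℝ} {q : RO ℤ} (h : ClassP θ q) : ClassP θ (bcR q) := by
  obtain ⟨h1, n, p, h2, h3, w, h4, h5⟩ := h
  refine ⟨h1, n, p.map (Int.castRingHom Eis), ?_, ?_, w, h4, ?_⟩
  · rw [h2, map_mul, bcR_T, bcR_L]
  · rw [Polynomial.coeff_map, ← RingHom.comp_apply, emb_comp]
    exact h3
  · rw [Polynomial.map_map, emb_comp]
    exact h5

/-! ### The class `DD` -/

theorem stable_bc {D : A L} (h : Stable D) : Stable (bc D) := by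
  obtain ⟨h0, lam, h1, h2⟩ := h
  refine ⟨?_, lam, ?_, ?_⟩
  · rw [bc_co]
    exact (map_ne_zero_iff bcR bcR_inj).mpr h0
  · intro a ha ha0
    refine h1 a ?_ ha0
    rw [Finsupp.mem_support_iff] at ha ⊢
    rw [bc_co] at ha
    exact (map_ne_zero_iff bcR bcR_inj).mp ha
  · intro z hz u s hs
    rw [bc_co, evR_bc] at hz
    rw [spec_bc]
    exact h2 z hz u s hs

theorem unitary_bc {D : A L} (h : Unitary D) : Unitary (bc D) := by
  obtain ⟨u, hu⟩ := h
  refine ⟨Units.map (bc : A L →+* AO Eis L).toMonoidHom u, ?_⟩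
  change sharp (bc D) * bc (u : A L) = bc D
  rw [sharp_bc, ← map_mul, hu]

theorem dd_bc {P : Type} [Fintype P] [DecidableEq P] [Module.Free ℤ L]
    [Module.Finite ℤ L] {phi : L →+ (P → ℤ)} {D : A L} (h : DD phi D)
    (hr : 1 ≤ Module.finrank ℤ L) : DD phi (bc D) := by
  have hst := stable_bc h.st
  -- a port which occurs
  have hport : ∃ (i : P) (a : L), D.coeff a ≠ 0 ∧ co phi i a = 1 := by
    by_contra hc
    push Not at hc
    have h1 : ∀ a ∈ supp D, a = 0 := by
      intro a ha
      apply h.inj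
      rw [map_zero]
      funext i
      rcases h.bin a ha i with h2 | h2
      · exact h2
      · exact absurd h2 (hc i a ha)
    have h2 : rk (supp D) = 0 := by
      unfold rk
      have h3 : Submodule.span ℤ (supp D) = ⊥ := by
        rw [Submodule.span_eq_bot]
        exact h1
      rw [h3]
      exact finrank_bot ℤ L
    rw [h.spn] at h2
    omega
  obtain ⟨i, a, ha, hi⟩ := hport
  refine ⟨h.inj, ?_, hst, unitary_bc h.un, ?_, ?_⟩
  · rw [supp_bc]
    exact h.bin
  · refine irr_bc (co phi i) D h.irr (wd_one (co phi i) (bc D) ?_ hst.1 a ?_ hi)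
    · intro b hb
      have h1 : b ∈ supp (bc D) := Finsupp.mem_support_iff.mp hb
      rw [supp_bc] at h1
      exact h.bin b h1 i
    · rw [bc_co]
      exact (map_ne_zero_iff bcR bcR_inj).mpr ha
  · rw [supp_bc]
    exact h.spn

theorem bdP_bc {θ B : ℝ} (hB : 1 ≤ B) (h : BdP Eis θ B) : BdP ℤ θ B := by
  intro P L _ _ _ _ _ phi D hD hc
  by_cases hr : 1 ≤ Module.finrank ℤ L
  · exact h P L phi (bc D) (dd_bc hD hr) (by rw [bc_co]; exact classP_bc hc)
  · have h1 : Module.finrank ℤ L = 0 := by omega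
    rw [h1]; push_cast; linarith

theorem bdV_bc {N B : ℝ} (hB : 1 ≤ B) (h : BdV Eis N B) : BdV ℤ N B := by
  intro P L _ _ _ _ _ phi D hD hc
  by_cases hr : 1 ≤ Module.finrank ℤ L
  · exact h P L phi (bc D) (dd_bc hD hr) (by rw [bc_co]; exact classV_bc hc)
  · have h1 : Module.finrank ℤ L = 0 := by omega
    rw [h1]; push_cast; linarith

end

end Pool.Agent.B5.H25.Bch
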