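import Pool.Agent.Lib.MP_b5021c_nt.IfaceB

/-!
# SHA: `G^#` is the complex conjugate on the torus; `#` is an involution
-/

namespace Pool.Agent.B5.H25

open scoped LaurentPolynomial

section

variable {O : Type} [CommRing O] [Coef O] {L : Type} [AddCommGroup L]

theorem conj_conj (x : O) : (Coef.conj : O ≃+* O) ((Coef.conj : O ≃+* O) x) = x := by
  apply emb_inj
  rw [Coef.emb_conj, Coef.emb_conj, Complex.conj_conj]

theorem rsh_C_mul_T (a : O) (n : ℤ) :
    rsh (LaurentPolynomial.C a * LaurentPolynomial.T n : RO O) =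
      LaurentPolynomial.C ((Coef.conj : O ≃+* O) a) * LaurentPolynomial.T (-n) := by
  have h0 : ∀ b : O, AddMonoidAlgebra.mapRingHom ℤ (Coef.conj : O ≃+* O).toRingHom
      (AddMonoidAlgebra.single n b : RO O) = AddMonoidAlgebra.single n ((Coef.conj : O ≃+* O) b) := by
    intro b
    exact AddMonoidAlgebra.mapRingHom_single _ _ _
  have h : AddMonoidAlgebra.mapRingHom ℤ (Coef.conj : O ≃+* O).toRingHom
      (LaurentPolynomial.C a * LaurentPolynomial.T n : RO O) =
      LaurentPolynomial.C ((Coef.conj : O ≃+* O) a) * LaurentPolynomial.T n := by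
    rw [← LaurentPolynomial.single_eq_C_mul_T, ← LaurentPolynomial.single_eq_C_mul_T]
    exact h0 a
  change LaurentPolynomial.invert (AddMonoidAlgebra.mapRingHom ℤ (Coef.conj : O ≃+* O).toRingHom
      (LaurentPolynomial.C a * LaurentPolynomial.T n : RO O)) = _
  rw [h, map_mul, LaurentPolynomial.invert_C, LaurentPolynomial.invert_T]

theorem rsh_rsh (q : RO O) : rsh (rsh q) = q := by
  induction q using LaurentPolynomial.induction_on' with
  | add p q hp hq => rw [map_add, map_add, hp, hq]
  | C_mul_T n a => rw [rsh_C_mul_T, rsh_C_mul_T, conj_conj, neg_neg]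

theorem conj_zpow_toUnits (z : Circle) (n : ℤ) :
    ((Circle.toUnits z ^ (-n) : ℂˣ) : ℂ) = (starRingEnd ℂ) ((Circle.toUnits z ^ n : ℂˣ) : ℂ) := by
  rw [← map_zpow, ← map_zpow, zpow_neg]
  change (((z ^ n)⁻¹ : Circle) : ℂ) = (starRingEnd ℂ) ((z ^ n : Circle) : ℂ)
  exact Circle.coe_inv_eq_conj _

theorem evR_rsh (z : Circle) (q : RO O) : evR z (rsh q) = (starRingEnd ℂ) (evR z q) := by
  induction q using LaurentPolynomial.induction_on' with
  | add p q hp hq => rw [map_add, map_add, map_add, hp, hq, map_add]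
  | C_mul_T n a =>
    rw [rsh_C_mul_T]
    simp only [evR, map_mul, LaurentPolynomial.eval₂_C, LaurentPolynomial.eval₂_T, Coef.emb_conj]
    rw [conj_zpow_toUnits]

theorem sharp_single (a : L) (q : RO O) :
    sharp (AddMonoidAlgebra.single a q) = AddMonoidAlgebra.single (-a) (rsh q) := by
  simp [sharp]

theorem ev_single (z : Circle) (u : AddChar L Circle) (a : L) (q : RO O) :
    ev z u (AddMonoidAlgebra.single a q) = evR z q * (u a : ℂ) := by
  simp [ev, spec, evC]

theorem ev_sharp (z : Circle) (u : AddChar L Circle) (G : AO O L) :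
    ev z u (sharp G) = (starRingEnd ℂ) (ev z u G) := by
  induction G using AddMonoidAlgebra.induction_linear with
  | zero => simp
  | add p q hp hq => rw [map_add, map_add, map_add, hp, hq, map_add]
  | single a q =>
    rw [sharp_single, ev_single, ev_single, evR_rsh, map_mul, AddChar.map_neg_eq_inv,
      Circle.coe_inv_eq_conj]

theorem sharp_sharp (G : AO O L) : sharp (sharp G) = G := by
  induction G using AddMonoidAlgebra.induction_linear with
  | zero => simp
  | add p q hp hq => rw [map_add, map_add, hp, hq]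
  | single a q => rw [sharp_single, sharp_single, rsh_rsh, neg_neg]

theorem isUnit_sharp {G : AO O L} (h : IsUnit (sharp G)) : IsUnit G := by
  have h2 := h.map (sharp : AO O L →+* AO O L)
  rwa [sharp_sharp] at h2

theorem irr_sharp {G : AO O L} (h : Irreducible G) : Irreducible (sharp G) := by
  refine ⟨fun hu => h.not_isUnit (isUnit_sharp hu), fun a b hab => ?_⟩
  have h1 : G = sharp a * sharp b := by rw [← map_mul, ← hab, sharp_sharp]
  rcases h.isUnit_or_isUnit h1 with h2 | h2
  · exact Or.inl (isUnit_sharp h2)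
  · exact Or.inr (isUnit_sharp h2)

theorem prim_sharp {G : AO O L} (h : Prim G) : Prim (sharp G) := by
  intro c hc
  obtain ⟨H, hH⟩ := hc
  have h1 : cst (rsh c) ∣ G := by
    refine ⟨sharp H, ?_⟩
    rw [← sharp_sharp G, hH, map_mul]
    congr 1
    rw [cst, sharp_single, neg_zero]
    rfl
  have h2 := (h _ h1).map (rsh : RO O →+* RO O)
  rwa [rsh_rsh] at h2

end

theorem sha : SharpS := by
  intro O _ _ _ _ L _ _ _ G
  exact ⟨fun z u => ev_sharp z u G, sharp_sharp G, irr_sharp, prim_sharp⟩

end Pool.Agent.B5.H25
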