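import Pool.Agent.Lib.MP_b5021c_nt.IfaceE7

/-!
# The exact values of `m_k` from the exact bounds of the rank (chapter E7)
-/

namespace Pool.Agent.B5.H25

open Polynomial Pool.Agent.MP_b5021c_nt Pool.Agent.B5

/-- The rank `k + 1` occurs in class `P(θ)` over `ℤ` if `θ` lies in the `k`-th derived set. -/
theorem exists_dd (hT : ThkS) (hG : GdzS) (k : ℕ) (θ : ℝ) (hk : 1 ≤ k) (h : θ ∈ PSk k) :
    ∃ D : AO ℤ (Fin (k + 1) → ℤ), DD (AddMonoidHom.id (Fin (k + 1) → ℤ)) D ∧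
      ClassP θ (D.coeff 0) := by
  obtain ⟨D, hD⟩ := hT k θ h (by omega)
  obtain ⟨h1, h2⟩ := hG (Fin (k + 1)) D θ hD
  exact ⟨_, h1, h2⟩

theorem bound_of_bdp (hT : ThkS) (hG : GdzS) {k : ℕ} {θ B : ℝ} (hk : 1 ≤ k) (h : θ ∈ PSk k)
    (hB : BdP ℤ θ B) : (k : ℝ) + 1 ≤ B := by
  obtain ⟨D, h1, h2⟩ := exists_dd hT hG k θ hk h
  have h3 := hB _ _ _ D h1 h2
  rw [Module.finrank_fin_fun] at h3
  push_cast at h3
  exact h3

/-- `k + 1 ≤ 2 (θ - 1/θ)` gives the lower bound. -/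
theorem quad_le {K θ : ℝ} (h1 : 1 < θ) (h : K ≤ 2 * (θ - 1 / θ)) :
    (K + Real.sqrt (K ^ 2 + 16)) / 4 ≤ θ := by
  have h0 : θ ≠ 0 := by linarith
  have h2 : K * θ ≤ 2 * (θ ^ 2 - 1) := by
    have h3 := mul_le_mul_of_nonneg_right h (show (0 : ℝ) ≤ θ by linarith)
    have h4 : 2 * (θ - 1 / θ) * θ = 2 * (θ ^ 2 - 1) := by
      field_simp
    linarith
  have h5 : K < 4 * θ := by
    by_contra h6
    push Not at h6
    nlinarith
  have h6 : Real.sqrt (K ^ 2 + 16) ≤ 4 * θ - K := by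
    rw [Real.sqrt_le_left (by linarith)]
    nlinarith
  linarith

theorem quad_mem' (hU : UpqS) {k : ℕ} (hk : Odd k) :
    ((((k : ℝ) + 1) + Real.sqrt (((k : ℝ) + 1) ^ 2 + 16)) / 4) ∈ PSk k := by
  obtain ⟨m, rfl⟩ := hk
  have h1 := hU (m + 1) (by omega)
  have h2 : 2 * (m + 1) - 1 = 2 * m + 1 := by omega
  rw [h2] at h1
  have h3 : Real.sqrt ((((2 * m + 1 : ℕ) : ℝ) + 1) ^ 2 + 16) =
      2 * Real.sqrt (((m + 1 : ℕ) : ℝ) ^ 2 + 4) := by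
    rw [show (((2 * m + 1 : ℕ) : ℝ) + 1) ^ 2 + 16 = 2 ^ 2 * ((((m + 1 : ℕ) : ℝ)) ^ 2 + 4) by
      push_cast; ring, Real.sqrt_mul (by norm_num), Real.sqrt_sq (by norm_num)]
  rw [h3]
  have h4 : ((((2 * m + 1 : ℕ) : ℝ) + 1) + 2 * Real.sqrt (((m + 1 : ℕ) : ℝ) ^ 2 + 4)) / 4 =
      (((m + 1 : ℕ) : ℝ) + Real.sqrt (((m + 1 : ℕ) : ℝ) ^ 2 + 4)) / 2 := by
    push_cast; ring
  rw [h4]
  exact h1

/-- MEX. -/
theorem mex (hT : ThkS) (hG : GdzS) (hM : Ma3S) (hU : UpqS) : MexS := by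
  intro t hE k hk hkt
  have hk1 : 1 ≤ k := hk.pos
  refine ⟨quad_mem' hU hk, fun θ hθ => ?_⟩
  have h1 := hM k θ hk1 hθ
  have h2 := bound_of_bdp hT hG hk1 hθ (hE θ (by linarith))
  obtain ⟨D, _, h3⟩ := exists_dd hT hG k θ hk1 hθ
  exact quad_le h3.1 h2

/-- MOX. -/
theorem mox (hT : ThkS) (hG : GdzS) (hM : Ma3S) (hU : UplS) : MoxS := by
  intro t hE k hk hk1 hkt
  refine ⟨?_, fun θ hθ => ?_⟩
  · obtain ⟨r, rfl⟩ := hk
    have h1 := hU (r + 1) (by omega)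
    have h2 : 2 * (r + 1) - 2 = r + r := by omega
    rw [h2] at h1
    have h3 : ((r + r : ℕ) : ℝ) / 2 + 1 = ((r + 1 : ℕ) : ℝ) := by push_cast; ring
    rw [h3]
    exact h1
  · have h1 := hM k θ hk1 hθ
    obtain ⟨D, h2, h3⟩ := exists_dd hT hG k θ hk1 hθ
    have h4 := hE θ (by linarith) _ _ _ D h2 h3 (by
      rw [Module.finrank_fin_fun]; exact hk.add_one)
    rw [Module.finrank_fin_fun] at h4
    push_cast at h4
    linarith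

/-- MEA. -/
theorem mea (hT : ThkS) (hG : GdzS) (hU : UpqS) : MeaS := by
  intro hE k hk
  have hk1 : 1 ≤ k := hk.pos
  refine ⟨quad_mem' hU hk, fun θ hθ => ?_⟩
  have h2 := bound_of_bdp hT hG hk1 hθ (hE θ)
  obtain ⟨D, _, h3⟩ := exists_dd hT hG k θ hk1 hθ
  exact quad_le h3.1 h2

end Pool.Agent.B5.H25
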