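import Pool.Agent.Lib.MP_b5021c_nt.IfaceE7
import Pool.Agent.Lib.MP_b5021c_nt.K.H54.Gde

/-!
# GDZ: the polynomials of the structure theorem belong to the class `DD` over `ℤ`
-/

namespace Pool.Agent.B5.H25

open Polynomial Filter Topology Pool.Agent.MP_b5021c_nt Pool.Agent.B5

noncomputable section

theorem gdz (ht : TcoS) (hs : StkS) (hu : UnkS) : GdzS := by
  intro ι _ _ _ D θ hD
  obtain ⟨hc, hsup⟩ := ht ι D
  refine ⟨⟨?_, ?_, hs ι D θ hD.free hD.one, hu ι D hD.uni, hD.irr, ?_⟩, ?_⟩
  · exact Function.injective_id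
  · intro a ha i
    obtain ⟨S, rfl, _⟩ := hsup a ha
    change ind S i = 0 ∨ ind S i = 1
    by_cases h : i ∈ S <;> simp [ind, h]
  · refine le_antisymm (Submodule.finrank_le _) ?_
    rw [Module.finrank_fintype_fun_eq_card]
    refine H54.span_le_card _ _ hD.spn ?_
    rintro v ⟨S, hS, rfl⟩
    refine ⟨ind S, Submodule.subset_span ?_, ?_⟩
    · change (toA D).coeff (ind S) ≠ 0
      rw [hc S]
      intro h
      have h2 : D S = 0 := Polynomial.toLaurent_injective (by rw [h, map_zero])
      exact hS (by rw [h2, Polynomial.coeff_zero])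
    · funext i
      change ((ind S i : ℤ) : ℚ) = _
      by_cases h : i ∈ S <;> simp [ind, h]
  · have h0 : (toA D).coeff 0 = Polynomial.toLaurent (D ∅) := by
      rw [← hc ∅, H54.ind_empty]
    refine ⟨hD.one.1, 0, D ∅, ?_, ?_, (((1 : ℝ) / θ : ℝ) : ℂ), ?_, ?_⟩
    · rw [h0, LaurentPolynomial.T_zero, one_mul]
    · rw [hD.one.2.1]
      simp
    · have h1 := hD.one.1
      rw [Complex.norm_real, Real.norm_of_nonneg (by positivity), one_div]
    · have h1 : (Coef.emb : ℤ →+* ℂ) = Int.castRingHom ℂ := RingHom.ext_int _ _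
      rw [h1]
      exact H54.roots_filter _ _ hD.one

end

end Pool.Agent.B5.H25
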