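import Pool.Agent.Lib.MP_b5021c_nt.IfaceE7
import Pool.Agent.Lib.MP_b5021c_nt.U.H42.Upper3

/-!
# UPQ: the upper bounds for the least elements (by helper42)
-/

namespace Pool.Agent.B5.H25

open Pool.Agent.MP_b5021c_nt

theorem upq : UpqS := fun c hc => Upper.quad_mem c hc

theorem upn : UplS := fun n hn => Upper.nat_mem n hn

end Pool.Agent.B5.H25
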